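import Pool.Agent.H71.AL.Targets

/-!
CZA: sequences of lifts have codes, and codes give sequences of lifts.
-/

set_option autoImplicit false

open Set
open Pool.Agent.AL

namespace Pool.Agent.H50.ALV

theorem dense_of_ds {D : Set ℝ} (h : Ds D) : Dense D :=
  dense_iff_exists_between.2 fun {p q} hpq => h p q hpq

theorem eq_of_ds {e : ℕ → ℝ} (h : Ds (range e)) {f g : ℝ → ℝ} (hf : Continuous f)
    (hg : Continuous g) (he : ∀ m, f (e m) = g (e m)) (x : ℝ) : f x = g x := by
  have h1 : DenseRange e := dense_of_ds h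
  exact congrFun (h1.equalizer hf hg (funext he)) x

theorem eq_of_rs {H H' : ℕ → ℝ ≃ₜ ℝ} (h : rs H = rs H') (k : ℕ) (x : ℝ) : H k x = H' k x := by
  have h1 : DenseRange (fun q : ℚ => (q : ℝ)) := Rat.denseRange_cast
  refine congrFun (h1.equalizer (H k).continuous (H' k).continuous (funext fun q => ?_)) x
  exact congrFun (congrFun h k) q

theorem strictMono_of_ds {e : ℕ → ℝ} (h : Ds (range e)) (φ : ℝ ≃ₜ ℝ)
    (hm : ∀ a b, e a < e b → φ (e a) < φ (e b)) : StrictMono φ := by
  rcases φ.continuous.strictMono_of_inj φ.injective with h1 | h1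
  · exact h1
  · exfalso
    obtain ⟨_, ⟨a, rfl⟩, _, ha⟩ := h 0 1 (by norm_num)
    obtain ⟨_, ⟨b, rfl⟩, hb, _⟩ := h 1 2 (by norm_num)
    have h2 := hm a b (ha.trans hb)
    exact lt_irrefl _ (h2.trans (h1 (ha.trans hb)))

/-- the sequence of the translation and the normal lifts -/
noncomputable def HH (h : ℕ → ℝ ≃ₜ ℝ) (m : ℕ → ℤ) : ℕ → ℝ ≃ₜ ℝ
  | 0 => Homeomorph.addRight 1
  | k + 1 => (h k).trans (Homeomorph.addRight (-(m k : ℝ)))

theorem iter_e {y : Y} {e : ℕ → ℝ} (h0 : ∀ m, e (y.2 0 m) = e m + 1) (n a : ℕ) :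
    e ((y.2 0)^[n] a) = e a + n := by
  induction n with
  | zero => simp
  | succ n ih =>
    rw [Function.iterate_succ_apply', h0, ih]
    push_cast
    ring

theorem part1 (hC : T_COD) (hH : T_HOM) (hN : T_NRM) (h : ℕ → ℝ ≃ₜ ℝ) (hL : ∀ k, Lf (h k)) :
    ∃ y e n, Cz y (rs h) e n := by
  choose m hm1 hm2 _ using fun k => hN (h k) (hL k)
  obtain ⟨y, e, hy, he, hcd⟩ := hC (HH h m)
  obtain ⟨h', h1, _, h3⟩ := hH y e hy.1 he
  have h4 := (h3 _).1 hcd
  have h5 : ∀ k n, e (y.2 (2 * k) n) = HH h m k (e n) := by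
    intro k n
    rw [h1, eq_of_rs h4]
  have h0 : ∀ n, e (y.2 0 n) = e n + 1 := fun n => h5 0 n
  have hs : ∀ k n, e (y.2 (2 * (k + 1)) n) = h k (e n) - m k := by
    intro k n
    rw [h5]
    show h k (e n) + -(m k : ℝ) = h k (e n) - m k
    ring
  refine ⟨y, e, m, ?_, he, h0, ?_⟩
  · constructor
    · exact hy
    · intro k a b hab
      rw [he.ord, h5, h5]
      rw [he.ord] at hab
      cases k with
      | zero =>
        show e a + 1 < e b + 1
        linarith
      | succ k =>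
        show h k (e a) + -(m k : ℝ) < h k (e b) + -(m k : ℝ)
        have := (hL k).1 hab
        linarith
    · intro k n
      apply he.inj
      cases k with
      | zero => rfl
      | succ k => rw [h0, hs, hs, h0, (hL k).2]; ring
    · intro a b
      obtain ⟨n, hn⟩ := exists_nat_gt (e b - e a)
      refine ⟨n, ?_⟩
      rw [he.ord, iter_e h0]
      linarith
    · intro k n hlt
      rw [he.ord, hs] at hlt
      have := hm1 k (e n)
      linarith
    · intro k
      obtain ⟨x, hx⟩ := hm2 k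
      have hop : IsOpen {x : ℝ | h k x < x + m k + 1} :=
        isOpen_lt (h k).continuous (by fun_prop)
      obtain ⟨_, ⟨n, rfl⟩, hn⟩ :=
        (dense_of_ds he.den).exists_mem_open hop ⟨x, hx⟩
      refine ⟨n, ?_⟩
      rw [he.ord, hs, h0]
      have hn' : h k (e n) < e n + m k + 1 := hn
      linarith
  · rw [h3, ← h4]
    funext k q
    cases k with
    | zero => rfl
    | succ k =>
      show h k q - (m k : ℝ) = h k q + -(m k : ℝ)
      ring

theorem part2 (hH : T_HOM) (y : Y) (a : ℕ → ℚ → ℝ) (e : ℕ → ℝ) (n : ℕ → ℤ) (hz : Cz y a e n) :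
    ∃ h : ℕ → ℝ ≃ₜ ℝ, (∀ k, Lf (h k)) ∧ a = rs h := by
  obtain ⟨hsp, he, h0, hcd⟩ := hz
  obtain ⟨H, h1, _, h3⟩ := hH y e hsp.cy.1 he
  have h4 := (h3 _).1 hcd
  refine ⟨fun k => (H (k + 1)).trans (Homeomorph.addRight (n k : ℝ)), ?_, ?_⟩
  · intro k
    constructor
    · have h5 : StrictMono (H (k + 1)) := by
        apply strictMono_of_ds he.den
        intro a b hab
        rw [← h1, ← h1, ← he.ord]
        rw [← he.ord] at hab
        exact hsp.inc (k + 1) a b hab
      intro s t hst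
      show H (k + 1) s + (n k : ℝ) < H (k + 1) t + (n k : ℝ)
      have := h5 hst
      linarith
    · have h5 : ∀ x, H (k + 1) (x + 1) = H (k + 1) x + 1 := by
        refine eq_of_ds he.den ((H (k + 1)).continuous.comp (continuous_id.add continuous_const))
          ((H (k + 1)).continuous.add continuous_const) ?_
        intro m
        show H (k + 1) (e m + 1) = H (k + 1) (e m) + 1
        rw [← h0, ← h1, ← h1, ← hsp.com, h0]
      intro x
      show H (k + 1) (x + 1) + (n k : ℝ) = H (k + 1) x + (n k : ℝ) + 1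
      rw [h5]
      ring
  · funext k q
    have h5 : a k q - n k = H (k + 1) q := congrFun (congrFun h4 (k + 1)) q
    show a k q = H (k + 1) q + (n k : ℝ)
    rw [← h5]
    ring

theorem part3 (hH : T_HOM) (hR : T_REA) (hS : T_TRS) (y : Y) (hsp : Sp y) :
    ∃ a e n, Cz y a e n := by
  obtain ⟨e0, he0⟩ := hR y hsp.cy.1
  obtain ⟨H0, h1, _, _⟩ := hH y e0 hsp.cy.1 he0
  have hmono : StrictMono (H0 0) := by
    apply strictMono_of_ds he0.den
    intro a b hab
    rw [← h1, ← h1, ← he0.ord]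
    rw [← he0.ord] at hab
    exact hsp.inc 0 a b hab
  have hit : ∀ n a, e0 ((y.2 0)^[n] a) = (H0 0)^[n] (e0 a) := by
    intro n a
    induction n with
    | zero => rfl
    | succ n ih =>
      rw [Function.iterate_succ_apply', Function.iterate_succ_apply', ← ih]
      exact h1 0 _
  have hgt : ∀ x, x < H0 0 x := by
    intro x
    by_contra hx
    rw [not_lt] at hx
    obtain ⟨_, ⟨a, rfl⟩, _, ha⟩ := he0.den (x - 1) x (by linarith)
    obtain ⟨_, ⟨b, rfl⟩, hb, _⟩ := he0.den x (x + 1) (by linarith)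
    obtain ⟨n, hn⟩ := hsp.cof a b
    rw [he0.ord, hit] at hn
    have h2 : ∀ n : ℕ, (H0 0)^[n] x ≤ x := by
      intro n
      induction n with
      | zero => exact le_rfl
      | succ n ih =>
        rw [Function.iterate_succ_apply']
        exact (hmono.monotone ih).trans hx
    have h3 : (H0 0)^[n] (e0 a) ≤ (H0 0)^[n] x := (hmono.monotone.iterate n) ha.le
    have h4 := h2 n
    linarith
  obtain ⟨g, hg, hg1⟩ := hS (H0 0) hmono hgt
  have he : Em (lt y) (fun m => g (e0 m)) := by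
    constructor
    · exact g.injective.comp he0.inj
    · intro m n
      rw [he0.ord, hg.lt_iff_lt]
    · intro p q hpq
      have h2 : g.symm p < g.symm q := by
        rw [← hg.lt_iff_lt, g.apply_symm_apply, g.apply_symm_apply]
        exact hpq
      obtain ⟨_, ⟨m, rfl⟩, hm1, hm2⟩ := he0.den _ _ h2
      refine ⟨g (e0 m), ⟨m, rfl⟩, ?_, ?_⟩
      · rw [← hg.lt_iff_lt, g.apply_symm_apply] at hm1
        exact hm1
      · rw [← hg.lt_iff_lt, g.apply_symm_apply] at hm2
        exact hm2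
  have h0 : ∀ m, g (e0 (y.2 0 m)) = g (e0 m) + 1 := by
    intro m
    rw [← hg1]
    exact congrArg g (h1 0 m)
  obtain ⟨H1, h2, _, h3⟩ := hH y _ hsp.cy.1 he
  have h4 : ∀ x, H1 0 x = x + 1 := by
    refine eq_of_ds he.den (H1 0).continuous (continuous_id.add continuous_const) ?_
    intro m
    show H1 0 (g (e0 m)) = g (e0 m) + 1
    rw [← h0]
    exact (h2 0 m).symm
  refine ⟨fun k q => H1 (k + 1) q, _, fun _ => 0, hsp, he, h0, ?_⟩
  rw [h3]
  funext k q
  cases k with
  | zero => exact (h4 q).symm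
  | succ k =>
    show H1 (k + 1) q - ((0 : ℤ) : ℝ) = H1 (k + 1) q
    simp

/-- CZA. -/
theorem pf_CZA (hC : T_COD) (hH : T_HOM) (hR : T_REA) (hN : T_NRM) (hS : T_TRS) : T_CZA :=
  ⟨part1 hC hH hN, part2 hH, part3 hH hR hS⟩

end Pool.Agent.H50.ALV
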