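import Pool.Agent.H71.AL.Targets

/-!
EXI: canonical dense sets exist.
-/

set_option autoImplicit false

open Set
open Pool.Agent.AL

namespace Pool.Agent.H50.ALV

section

variable {ι : Type} {G : ι → ℝ → ℝ}

theorem sc_symm {x y : ℝ} (h : SC G x y) : SC G y x := by
  intro z hz
  exact h z (uIcc_comm x y ▸ hz)

theorem sc_trans {x y z : ℝ} (h : SC G x y) (h' : SC G y z) : SC G x z := by
  intro w hw
  rcases uIcc_subset_uIcc_union_uIcc (b := y) hw with h1 | h1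
  · exact h w h1
  · exact h' w h1

theorem sc_self {x : ℝ} (h : x ∉ Fc G) : SC G x x := by
  intro z hz
  rw [uIcc_self, mem_singleton_iff] at hz
  rw [hz]
  exact h

/-- the rational points in the components which are not good -/
def TT (G : ι → ℝ → ℝ) : Set ℝ := {x | (∃ r : ℚ, (r : ℝ) = x) ∧ x ∉ Fc G ∧ ¬ Ws rl G x}

/-- the chosen representative -/
noncomputable def sel (G : ι → ℝ → ℝ) (x : ℝ) : ℝ :=
  Classical.epsilon (fun y => y ∈ TT G ∧ ∃ i, SC G (G i x) y)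

theorem sel_spec (hG : Gp rl G) {x : ℝ} (hx : x ∈ TT G) :
    sel G x ∈ TT G ∧ ∃ i, SC G (G i x) (sel G x) := by
  refine Classical.epsilon_spec (p := fun y => y ∈ TT G ∧ ∃ i, SC G (G i x) y) ?_
  obtain ⟨i, hi⟩ := hG.one
  refine ⟨x, hx, i, ?_⟩
  rw [hi]
  exact sc_self hx.2.1

theorem sel_eq (hI : T_INV) (hG : Gp rl G) {x y : ℝ} (h : ∃ i, SC G (G i x) y) :
    sel G x = sel G y := by
  unfold sel
  congr 1
  funext z
  obtain ⟨i, hi⟩ := h
  apply propext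
  constructor
  · rintro ⟨hz, j, hj⟩
    refine ⟨hz, ?_⟩
    obtain ⟨i', hi', _⟩ := hG.inv i
    obtain ⟨k, hk⟩ := hG.mul j i'
    refine ⟨k, ?_⟩
    have h1 := (hI ι G hG k).2.2.2.2 _ _ hi
    have h2 : G k (G i x) = G j x := by rw [hk, hi']
    rw [h2] at h1
    exact sc_trans (sc_symm h1) hj
  · rintro ⟨hz, j, hj⟩
    refine ⟨hz, ?_⟩
    obtain ⟨k, hk⟩ := hG.mul j i
    refine ⟨k, ?_⟩
    have h1 := (hI ι G hG j).2.2.2.2 _ _ hi
    rw [hk]
    exact sc_trans h1 hj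

/-- the set of all chosen points -/
def DD (G : ι → ℝ → ℝ) : Set ℝ :=
  {x | Es rl G x} ∪ {z | ∃ i q, z = G i q ∧ (∃ r : ℚ, (r : ℝ) = q) ∧
    (Ws rl G q ∨ (q ∈ TT G ∧ sel G q = q))}

theorem dd_iv (hI : T_INV) (hG : Gp rl G) : Iv G (DD G) := by
  intro j d hd
  rcases hd with hd | ⟨i, q, rfl, hq⟩
  · exact Or.inl ((hI ι G hG j).2.2.1 d hd)
  · obtain ⟨k, hk⟩ := hG.mul j i
    exact Or.inr ⟨k, q, (hk q).symm, hq⟩

theorem dd_countable [Countable ι] (hT : T_CTE) (hG : Gp rl G) : (DD G).Countable := by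
  refine Countable.union (hT ι G hG) ?_
  refine (countable_range (fun p : ι × ℚ => G p.1 (p.2 : ℝ))).mono ?_
  rintro z ⟨i, q, rfl, ⟨r, rfl⟩, _⟩
  exact ⟨(i, r), rfl⟩

theorem dd_dense (hI : T_INV) (hC : T_CMP) (hD : T_DNS) (hG : Gp rl G) : Ds (DD G) := by
  intro p q hpq
  by_cases hE : ∃ z, p < z ∧ z < q ∧ Es rl G z
  · obtain ⟨z, h1, h2, h3⟩ := hE
    exact ⟨z, Or.inl h3, h1, h2⟩
  · have hF : ∀ z, p < z → z < q → z ∉ Fc G := by
      intro z h1 h2 h3
      obtain ⟨w, hw, hw'⟩ := mem_closure_iff.1 h3 (Ioo p q) isOpen_Ioo ⟨h1, h2⟩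
      exact hE ⟨w, hw.1, hw.2, hw'⟩
    obtain ⟨t, ht1, ht2⟩ := exists_rat_btwn hpq
    by_cases hW : Ws rl G (t : ℝ)
    · obtain ⟨i, hi⟩ := hG.one
      exact ⟨t, Or.inr ⟨i, t, (hi _).symm, ⟨t, rfl⟩, Or.inl hW⟩, ht1, ht2⟩
    · have htT : (t : ℝ) ∈ TT G := ⟨⟨t, rfl⟩, hF _ ht1 ht2, hW⟩
      obtain ⟨h0T, i, hi⟩ := sel_spec hG htT
      obtain ⟨j, hj, _⟩ := hG.inv i
      have h1 := (hI ι G hG j).2.2.2.2 _ _ hi
      rw [hj] at h1
      have h0W : ¬ Ws rl G (G j (sel G t)) := fun h => hW (hC ι G hG _ _ h (sc_symm h1))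
      obtain ⟨p1, hp1, hp1'⟩ := exists_between ht1
      obtain ⟨q1, hq1, hq1'⟩ := exists_between ht2
      have h2 : SC G (t : ℝ) p1 := by
        intro z hz
        rw [uIcc_of_ge hp1'.le] at hz
        exact hF z (hp1.trans_le hz.1) (hz.2.trans_lt ht2)
      have h3 : SC G (t : ℝ) q1 := by
        intro z hz
        rw [uIcc_of_le hq1.le] at hz
        exact hF z (ht1.trans_le hz.1) (hz.2.trans_lt hq1')
      obtain ⟨k, hk1, hk2⟩ := hD ι G hG _ p1 q1 (hp1'.trans hq1) (sc_trans (sc_symm h1) h2)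
        (sc_trans (sc_symm h1) h3) h0W
      obtain ⟨l, hl⟩ := hG.mul k j
      rw [← hl] at hk1 hk2
      refine ⟨G l (sel G t), Or.inr ⟨l, sel G t, rfl, h0T.1, Or.inr ⟨h0T, ?_⟩⟩,
        hp1.trans hk1, hk2.trans hq1'⟩
      exact (sel_eq hI hG ⟨i, hi⟩).symm

theorem dd_cr (hI : T_INV) (hE : T_ESW) (hC : T_CMP) (hG : Gp rl G) : CR G (DD G) := by
  constructor
  · intro x hx
    exact Or.inl hx
  · intro x hx hF
    rcases hx with hx | ⟨i, q, rfl, _, hq | hq⟩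
    · exact hx
    · exact absurd ((hI ι G hG i).1 q hq) ((hE ι G hG).2.2 _ hF)
    · obtain ⟨j, hj, _⟩ := hG.inv i
      have h1 := (hI ι G hG j).2.2.2.1 _ hF
      rw [hj] at h1
      exact absurd h1 hq.1.2.1
  · intro x hx y hy hxy hS hW
    have hxF : x ∉ Fc G := hS x left_mem_uIcc
    have hyF : y ∉ Fc G := hS y right_mem_uIcc
    have hWy : ¬ Ws rl G y := fun h => hW (hC ι G hG _ _ h (sc_symm hS))
    rcases hx with hx | ⟨i, q, rfl, _, hq | hq⟩
    · exact absurd (subset_closure hx) hxF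
    · exact absurd ((hI ι G hG i).1 q hq) hW
    · rcases hy with hy | ⟨j, q1, rfl, _, hq1 | hq1⟩
      · exact absurd (subset_closure hy) hyF
      · exact absurd ((hI ι G hG j).1 q1 hq1) hWy
      · obtain ⟨j', hj', _⟩ := hG.inv j
        obtain ⟨i', hi', _⟩ := hG.inv i
        have h1 := (hI ι G hG j').2.2.2.2 _ _ hS
        rw [hj'] at h1
        obtain ⟨k, hk⟩ := hG.mul j' i
        rw [← hk] at h1
        have h2 : q = q1 := by
          rw [← hq.2, ← hq1.2]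
          exact sel_eq hI hG ⟨k, h1⟩
        obtain ⟨l, hl⟩ := hG.mul j i'
        refine ⟨l, ?_⟩
        rw [hl, hi', h2]

end

/-- EXI. -/
theorem pf_EXI (hI : T_INV) (hE : T_ESW) (hC : T_CMP) (hD : T_DNS) (hT : T_CTE) : T_EXI := by
  intro ι _ G hG
  have hds := dd_dense hI hC hD hG
  have hinf : (DD G).Infinite := by
    refine infinite_of_forall_exists_gt ?_
    intro a
    obtain ⟨d, hd, h1, _⟩ := hds a (a + 1) (by linarith)
    exact ⟨d, hd, h1⟩
  have : Countable (DD G) := (dd_countable hT hG).to_subtype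
  have : Infinite (DD G) := hinf.to_subtype
  obtain ⟨hden⟩ := nonempty_denumerable (DD G)
  have hr : range (fun n : ℕ => (((Denumerable.eqv (DD G)).symm n : DD G) : ℝ)) = DD G := by
    ext z
    constructor
    · rintro ⟨n, rfl⟩
      exact Subtype.coe_prop _
    · intro hz
      refine ⟨Denumerable.eqv (DD G) ⟨z, hz⟩, ?_⟩
      simp
  refine ⟨fun n : ℕ => (((Denumerable.eqv (DD G)).symm n : DD G) : ℝ), ?_, ?_, ?_, ?_⟩
  · exact Subtype.val_injective.comp (Denumerable.eqv (DD G)).symm.injective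
  · rw [hr]; exact hds
  · rw [hr]; exact dd_iv hI hG
  · rw [hr]; exact dd_cr hI hE hC hG

end Pool.Agent.H50.ALV
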